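import Mathlib
import Pool.Agent.MP_cb1e0a_co.Space

namespace Pool.Agent.Results.MP_cb1e0a_co.InfiniteCopNumber

open Pool.Agent.MP_cb1e0a_co

/-- There is a homogeneous compact geodesic metric space with infinite cop number. -/
theorem result : ∃ (X : Type) (_ : MetricSpace X), Nonempty X ∧ CompactSpace X ∧
    IsGeodesicSpace X ∧ IsHomogeneous X ∧ ∀ k : ℕ, ¬ CopsWin X k :=
  ⟨TT, inferInstance, ⟨0⟩, compact_TT, geodesic_TT, homogeneous_TT, not_copsWin⟩

end Pool.Agent.Results.MP_cb1e0a_co.InfiniteCopNumber
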